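import Pool.Agent.H211.HY.Stm3
import Pool.Agent.H51.HY211.OMIT
import Pool.Agent.H263.HY211.DCR

/-! HY211 OMITJ: omitted points far from a given point, in any chart (helper230), adapted from
`Pool/Agent/H51/HY211/OMIT.lean` (helper51). -/

set_option autoImplicit false

open Topology Filter Metric Set MeasureTheory Polynomial

namespace Pool.Agent.H230.HY211

open Pool.Agent.H790R3.RB Pool.Agent.H211.HY Pool.Agent.H51.HY211.Omit

/-- two points with different images are not mapped into a small ball, in any chart -/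
theorem sepT (τ : Bool) {u v : ℂ × ℂ} (hu : u ≠ 0) (hv : v ≠ 0) (huv : cr u v ≠ 0) :
    ∃ R > (0 : ℝ), ∀ y : ℂ,
      (∀ w ∈ ball y R, cr u (iot τ w) ≠ 0) ∨ ∀ w ∈ ball y R, cr v (iot τ w) ≠ 0 := by
  cases τ with
  | true =>
    simpa only [iot, if_true] using sep hu hv huv
  | false =>
    have hs : ∀ u : ℂ × ℂ, u ≠ 0 → u.swap ≠ 0 := by
      intro u hu h
      apply hu
      have h1 := congrArg Prod.fst h
      have h2 := congrArg Prod.snd h
      exact Prod.ext h2 h1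
    have hcr : ∀ u v : ℂ × ℂ, cr u.swap v = -cr u v.swap := by
      intro u v
      simp only [cr, Prod.fst_swap, Prod.snd_swap]
      ring
    obtain ⟨R, hR, h⟩ := sep (hs u hu) (hs v hv) (by
      rw [hcr, Prod.swap_swap]
      exact neg_ne_zero.2 huv)
    have key : ∀ (u : ℂ × ℂ) (w : ℂ), cr u.swap (w, 1) ≠ 0 → cr u (iot false w) ≠ 0 := by
      intro u w hw
      rw [hcr] at hw
      exact neg_ne_zero.1 hw
    refine ⟨R, hR, fun y => ?_⟩
    rcases h y with h1 | h1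
    · exact Or.inl fun w hw => key u w (h1 w hw)
    · exact Or.inr fun w hw => key v w (h1 w hw)

theorem one_nT {d : ℕ} (x : CV d) (hd : 2 ≤ d) (hx : ND x) (τ : Bool) (n : ℕ) : ∃ R > (0 : ℝ),
    ∀ (y : ℂ) (a : ℂ × ℂ), a ≠ 0 →
      ∃ q : ℂ × ℂ, q ≠ 0 ∧ 1 / 2 ≤ cho q a ∧ ∀ w ∈ ball y R, cr ((hF x)^[n] q) (iot τ w) ≠ 0 := by
  -- the first pair of antipodal points
  set p1 : ℂ × ℂ := (1, 0) with hp1
  have hp1n : p1 ≠ 0 := by simp [hp1]
  set p2 : ℂ × ℂ := opp p1 with hp2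
  have hp2n : p2 ≠ 0 := opp_ne hp1n
  have hf1 := fib_finite x hd hx n (hx.iter_ne n hp1n)
  have hf2 := fib_finite x hd hx n (hx.iter_ne n hp2n)
  set S : Set ℂ := {ζ : ℂ | cr ((hF x)^[n] (ζ, 1)) ((hF x)^[n] p1) = 0} ∪
    {ζ : ℂ | cr ((hF x)^[n] (ζ, 1)) ((hF x)^[n] p2) = 0} with hS
  have hSf : S.Finite := hf1.union hf2
  -- the second pair
  obtain ⟨t, ht0, htS, htS'⟩ : ∃ t : ℕ, 0 < t ∧ ((t : ℕ) : ℂ) ∉ S ∧ (-(1 / ((t : ℕ) : ℂ))) ∉ S := by
    have g1 : {t : ℕ | ((t : ℕ) : ℂ) ∈ S}.Finite :=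
      hSf.preimage (fun a _ b _ h => by exact_mod_cast h)
    have g2 : {t : ℕ | (-(1 / ((t : ℕ) : ℂ))) ∈ S}.Finite := by
      refine hSf.preimage (fun a _ b _ h => ?_)
      have h1 : (1 : ℂ) / ((a : ℕ) : ℂ) = 1 / ((b : ℕ) : ℂ) := neg_injective h
      rw [one_div, one_div, inv_inj] at h1
      exact_mod_cast h1
    have g3 := ((g1.union g2).union (Set.finite_singleton 0)).infinite_compl
    obtain ⟨t, ht⟩ := g3.nonempty
    simp only [mem_compl_iff, mem_union, mem_ofPred_eq, mem_singleton_iff, not_or] at ht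
    exact ⟨t, Nat.pos_of_ne_zero ht.2, ht.1.1, ht.1.2⟩
  set r1 : ℂ × ℂ := ((t : ℂ), 1) with hr1
  have hr1n : r1 ≠ 0 := by simp [hr1]
  set r2 : ℂ × ℂ := opp r1 with hr2
  have hr2n : r2 ≠ 0 := opp_ne hr1n
  have htc : (t : ℂ) ≠ 0 := by exact_mod_cast ht0.ne'
  have hr2e : r2 = (t : ℂ) • ((-(1 / (t : ℂ)), 1) : ℂ × ℂ) := by
    rw [hr2, hr1]
    apply Prod.ext
    · simp only [opp, map_one, Prod.smul_fst, smul_eq_mul]
      field_simp
    · simp [opp]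
  simp only [hS, mem_union, mem_ofPred_eq, not_or] at htS htS'
  have key : ∀ p ∈ ({p1, p2} : Set (ℂ × ℂ)), ∀ r ∈ ({r1, r2} : Set (ℂ × ℂ)),
      cr ((hF x)^[n] p) ((hF x)^[n] r) ≠ 0 := by
    have k1 : ∀ p ∈ ({p1, p2} : Set (ℂ × ℂ)), cr ((hF x)^[n] r1) ((hF x)^[n] p) ≠ 0 := by
      rintro p (rfl | rfl)
      · exact htS.1
      · exact htS.2
    have k2 : ∀ p ∈ ({p1, p2} : Set (ℂ × ℂ)), cr ((hF x)^[n] r2) ((hF x)^[n] p) ≠ 0 := by
      have hpow : ((t : ℂ) ^ d ^ n) ≠ 0 := pow_ne_zero _ htc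
      rintro p (rfl | rfl)
      · rw [hr2e, hF_iter_smul, cr_smul_left]
        exact mul_ne_zero hpow htS'.1
      · rw [hr2e, hF_iter_smul, cr_smul_left]
        exact mul_ne_zero hpow htS'.2
    rintro p hp r (rfl | rfl)
    · rw [cr_comm]
      exact neg_ne_zero.2 (k1 p hp)
    · rw [cr_comm]
      exact neg_ne_zero.2 (k2 p hp)
  have hpn : ∀ p ∈ ({p1, p2} : Set (ℂ × ℂ)), p ≠ 0 := by
    rintro p (rfl | rfl)
    · exact hp1n
    · exact hp2n
  have hrn : ∀ r ∈ ({r1, r2} : Set (ℂ × ℂ)), r ≠ 0 := by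
    rintro r (rfl | rfl)
    · exact hr1n
    · exact hr2n
  have half : ∀ c : ℂ × ℂ, c ≠ 0 → ∀ a : ℂ × ℂ, a ≠ 0 → 1 / 2 ≤ cho c a ∨ 1 / 2 ≤ cho (opp c) a := by
    intro c hc a ha
    have h1 := cho_tri (opp_ne hc) ha hc
    rw [cho_opp hc, cho_comm a c] at h1
    by_contra hcon
    push Not at hcon
    linarith [hcon.1, hcon.2]
  have hsep : ∀ p ∈ ({p1, p2} : Set (ℂ × ℂ)), ∀ r ∈ ({r1, r2} : Set (ℂ × ℂ)), ∃ R > (0 : ℝ),
      ∀ y : ℂ, (∀ w ∈ ball y R, cr ((hF x)^[n] p) (iot τ w) ≠ 0) ∨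
        ∀ w ∈ ball y R, cr ((hF x)^[n] r) (iot τ w) ≠ 0 := by
    intro p hp r hr
    exact sepT τ (hx.iter_ne n (hpn p hp)) (hx.iter_ne n (hrn r hr)) (key p hp r hr)
  obtain ⟨R11, hR11, h11⟩ := hsep p1 (by simp) r1 (by simp)
  obtain ⟨R12, hR12, h12⟩ := hsep p1 (by simp) r2 (by simp)
  obtain ⟨R21, hR21, h21⟩ := hsep p2 (by simp) r1 (by simp)
  obtain ⟨R22, hR22, h22⟩ := hsep p2 (by simp) r2 (by simp)
  refine ⟨min (min R11 R12) (min R21 R22), by positivity, fun y a ha => ?_⟩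
  have fin : ∀ p r : ℂ × ℂ, p ≠ 0 → r ≠ 0 → 1 / 2 ≤ cho p a → 1 / 2 ≤ cho r a → ∀ R' : ℝ,
      min (min R11 R12) (min R21 R22) ≤ R' →
      ((∀ w ∈ ball y R', cr ((hF x)^[n] p) (iot τ w) ≠ 0) ∨
        ∀ w ∈ ball y R', cr ((hF x)^[n] r) (iot τ w) ≠ 0) →
      ∃ q : ℂ × ℂ, q ≠ 0 ∧ 1 / 2 ≤ cho q a ∧
        ∀ w ∈ ball y (min (min R11 R12) (min R21 R22)), cr ((hF x)^[n] q) (iot τ w) ≠ 0 := by
    intro p r hp hr hpa hra R' hR' h
    rcases h with h | h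
    · exact ⟨p, hp, hpa, fun w hw => h w (ball_subset_ball hR' hw)⟩
    · exact ⟨r, hr, hra, fun w hw => h w (ball_subset_ball hR' hw)⟩
  rcases half p1 hp1n a ha with ha1 | ha1 <;> rcases half r1 hr1n a ha with ha2 | ha2
  · exact fin p1 r1 hp1n hr1n ha1 ha2 R11 (by simp) (h11 y)
  · exact fin p1 r2 hp1n hr2n ha1 ha2 R12 (by simp) (h12 y)
  · exact fin p2 r1 hp2n hr1n ha1 ha2 R21 (by simp) (h21 y)
  · exact fin p2 r2 hp2n hr2n ha1 ha2 R22 (by simp) (h22 y)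

/-- the point at infinity of the chart -/
def infT (τ : Bool) : ℂ × ℂ := if τ then (1, 0) else (0, 1)

theorem infT_ne (τ : Bool) : infT τ ≠ 0 := by
  cases τ <;> simp [infT]

theorem cr_infT (τ : Bool) {p : ℂ × ℂ} (hp : p ≠ 0) (h : cr p (infT τ) = 0) (w : ℂ) :
    cr p (iot τ w) ≠ 0 := by
  cases τ with
  | true =>
    simp only [infT, if_true, iot, cr, mul_zero, mul_one, zero_sub, neg_eq_zero] at h ⊢
    intro h6
    rw [h, zero_mul, sub_zero] at h6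
    exact hp (Prod.ext h6 h)
  | false =>
    simp only [infT, iot, cr, mul_zero, mul_one, sub_zero, Bool.false_eq_true, if_false] at h ⊢
    intro h6
    rw [h, zero_mul, zero_sub, neg_eq_zero] at h6
    exact hp (Prod.ext h h6)

theorem cho_pos {p q : ℂ × ℂ} (hp : p ≠ 0) (hq : q ≠ 0) (h : cr p q ≠ 0) : 0 < cho p q := by
  rw [cho_eq]
  have h1 := pos_of_ne hp
  have h2 := pos_of_ne hq
  have h3 := norm_pos_iff.2 h
  positivity

theorem t_OMITJ (hJul : S_JUL) : S_OMITJ := by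
  intro d x hd hx hce hleo
  obtain ⟨-, hJ2, -, -, hJ5⟩ := hJul d x hd hx
  obtain ⟨c, hc, hw⟩ := Pool.Agent.H263.HY211.exists_crit x hd
  have hJc : Jul x c := hJ5 hce c hc hw
  set v : ℂ × ℂ := hF x c with hv
  have hv0 : v ≠ 0 := fun h => hc (hx c h)
  have hJv : Jul x v := (hJ2 c hc).2 hJc
  have hcv : cr c v ≠ 0 := by
    intro h
    have h1 : cr v c = 0 := by rw [cr_comm, h, neg_zero]
    exact Pool.Agent.H263.HY211.ce_no hce hc hw 0
      (Pool.Agent.H263.HY211.wr_zero_of_cr x hd hv0 hc h1 hw)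
  set δ : ℝ := cho c v with hδ
  have hδ0 : 0 < δ := cho_pos hc hv0 hcv
  obtain ⟨N, hN⟩ := hleo (δ / 4) (by positivity)
  choose R hR hR2 using one_nT x hd hx
  obtain ⟨r, hr, hr2⟩ := min_pos (R true) (hR true) N
  obtain ⟨r', hr', hr2'⟩ := min_pos (R false) (hR false) N
  refine ⟨min (1 / 2) (δ / 4), by positivity, min r r', by positivity, ?_⟩
  intro n τ y a ha
  by_cases hn : n < N
  · obtain ⟨q, h1, h2, h3⟩ := hR2 τ n y a ha
    refine ⟨q, h1, (min_le_left _ _).trans h2, fun w hw => h3 w (ball_subset_ball ?_ hw)⟩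
    cases τ with
    | true => exact (min_le_left _ _).trans (hr2 n hn)
    | false => exact (min_le_right _ _).trans (hr2' n hn)
  · have key : ∀ p : ℂ × ℂ, p ≠ 0 → Jul x p → δ / 2 ≤ cho p a → ∃ q : ℂ × ℂ, q ≠ 0 ∧
        min (1 / 2) (δ / 4) ≤ cho q a ∧
        ∀ w ∈ ball y (min r r'), cr ((hF x)^[n] q) (iot τ w) ≠ 0 := by
      intro p hp hJp hpa
      obtain ⟨q, h1, h2, h3⟩ := hN n (not_lt.1 hn) p (infT τ) hp hJp (infT_ne τ)
      refine ⟨q, h1, ?_, fun w _ => cr_infT τ (hx.iter_ne n h1) h3 w⟩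
      have h4 := cho_tri hp h1 ha
      exact (min_le_right _ _).trans (by linarith)
    have h5 : δ ≤ cho c a + cho v a := by
      rw [cho_comm v a]
      exact cho_tri hc ha hv0
    rcases le_total (δ / 2) (cho c a) with h | h
    · exact key c hc hJc h
    · exact key v hv0 hJv (by linarith)

end Pool.Agent.H230.HY211
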