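import Pool.Agent.H211.HY.Stm5
import Pool.Graph.R_seed8.H790R3.RB.TWR

/-!
# Project HY (helper211), S_SAME: homogeneous factorisation of the Jacobian (helper230)
-/

set_option autoImplicit false

open Topology Filter Metric Set MeasureTheory

namespace Pool.Agent.H230.HY211

open Pool.Agent.H790R3.RB Pool.Agent.H211.HY

/-- The homogeneous factorisation from the one in the plane. -/
theorem fac_hom {d k : ℕ} (y : CV d) (m : Fin k → ℕ) (c : Fin k → ℂ) (hd : 2 ≤ d)
    (hdeg : ∑ i, m i = 2 * d - 2)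
    (hfac : ∀ ζ : ℂ, wr y (ζ, 1) = wr y (1, 0) * ∏ i, (ζ - c i) ^ m i) (p : ℂ × ℂ) :
    wr y p = wr y (1, 0) * ∏ i, cr p (c i, 1) ^ m i := by
  have hom := (WR d y hd).1
  obtain ⟨u, v⟩ := p
  by_cases hv : v = 0
  · subst hv
    have h1 : ((u, 0) : ℂ × ℂ) = u • ((1, 0) : ℂ × ℂ) := by
      simp
    have h2 : ∀ i, cr ((u, 0) : ℂ × ℂ) (c i, 1) ^ m i = u ^ m i := by
      intro i
      simp [cr]
    rw [Finset.prod_congr rfl (fun i _ => h2 i), Finset.prod_pow_eq_pow_sum, hdeg, h1, hom]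
    ring
  · have h1 : ((u, v) : ℂ × ℂ) = v • ((u / v, 1) : ℂ × ℂ) := by
      simp only [Prod.smul_mk, smul_eq_mul, mul_one]
      rw [mul_div_cancel₀ _ hv]
    have h2 : ∀ i, cr ((u, v) : ℂ × ℂ) (c i, 1) ^ m i = v ^ m i * (u / v - c i) ^ m i := by
      intro i
      rw [← mul_pow]
      congr 1
      unfold cr
      rw [mul_sub, mul_div_cancel₀ _ hv]
      ring
    rw [Finset.prod_congr rfl (fun i _ => h2 i), Finset.prod_mul_distrib,
      Finset.prod_pow_eq_pow_sum, hdeg, h1, hom, hfac]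
    ring

theorem t_SAME : S_SAME := by
  intro d k x z m c c' hd hF hx hz hzf hc'
  refine ⟨k, m, fun i => (c i, 1), fun i => (c' i, 1), wr x (1, 0), wr z (1, 0), hx, hz, hF.pos,
    ?_, fac_hom x m c hd hF.deg hF.fac, fac_hom z m c' hd hF.deg hzf⟩
  intro i j hij
  constructor
  · show c i * 1 - 1 * c j ≠ 0
    rw [mul_one, one_mul, sub_ne_zero]
    exact fun h => hij (hF.inj h)
  · show c' i * 1 - 1 * c' j ≠ 0
    rw [mul_one, one_mul, sub_ne_zero]
    exact fun h => hij (hc' h)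

end Pool.Agent.H230.HY211
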